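import Pool.Agent.H97.V0F.Ac
import Pool.Agent.H44.V0F.S5

/-!
# The codes of the base coordinates: the statement
-/

set_option autoImplicit false

namespace Pool.V0F97

/-- **(AC).** -/
theorem acStmt : Pool.V0F.AcStmt := fun r K => ac_stmt r K

end Pool.V0F97
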