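import Pool.Agent.H57.AVG.Jts
import Pool.Agent.H71.AVG.Cof

/-!
# The codes of the base coordinates from their jets

`co_mix`: the coefficients of a polynomial from its jets of the orders `0`, `1` and the coefficients
of order `≥ 2`. `ac_near`: for equal digits of the jets of the orders `0`, `1` and equal codes of
order `≥ 2` the codes of the base coordinates are near. `ac_stmt`: the entropies.
-/

set_option autoImplicit false

namespace Pool.V0F97

open Finset Real MvPolynomial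
open Pool.Agent.H49.Ent Pool.Agent.H32.Dense Pool.STK Pool.KA Pool.KSAT Pool.K2S Pool.PB Pool.S6C
open Pool.GEN Pool.CHT Pool.CHX Pool.ISO Pool.LA91 Pool.AVG71 Pool.AVG5
open Pool.AVG57 hiding cod
open Pool.PB.Trl (rt rt_mem t_rt)

variable {m J : ℕ}

/-- **The coefficients** from the jets of the orders `0`, `1` and the coefficients of order `≥ 2`. -/
theorem co_mix {K : ℕ} {P Q : Polynomial ℝ} (hP : P.natDegree ≤ K) (hQ : Q.natDegree ≤ K)
    {θ δ δ₀ : ℝ} (hθ : |θ| ≤ 1) (hδ : 0 ≤ δ) (h01 : δ ≤ δ₀)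
    (h2 : ∀ i, 2 ≤ i → i ≤ K → |P.coeff i - Q.coeff i| ≤ δ)
    (h1 : |jt P θ 1 - jt Q θ 1| ≤ δ) (h0 : |jt P θ 0 - jt Q θ 0| ≤ δ₀) :
    (∀ i, 1 ≤ i → |P.coeff i - Q.coeff i| ≤ 2 ^ (K + 1) * (2 ^ (K + 1) * δ)) ∧
      |P.coeff 0 - Q.coeff 0| ≤ 2 ^ (K + 1) * (2 ^ (K + 1) * δ₀) := by
  have p1 : (1 : ℝ) ≤ 2 ^ (K + 1) := one_le_pow₀ (by norm_num)
  have hδ₀ : 0 ≤ δ₀ := hδ.trans h01
  have a2 : ∀ i, 2 ≤ i → |jt P θ i - jt Q θ i| ≤ 2 ^ (K + 1) * δ := fun i hi =>
    jt_dif hP hQ hθ hδ fun j hj hjK => h2 j (hi.trans hj) hjK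
  have a1 : ∀ i, 1 ≤ i → |jt P θ i - jt Q θ i| ≤ 2 ^ (K + 1) * δ := by
    intro i hi
    rcases Nat.lt_or_ge 1 i with h3 | h3
    · exact a2 i h3
    · have h4 : i = 1 := le_antisymm h3 hi
      rw [h4]
      exact h1.trans (le_mul_of_one_le_left hδ p1)
  have a0 : ∀ i, |jt P θ i - jt Q θ i| ≤ 2 ^ (K + 1) * δ₀ := by
    intro i
    rcases Nat.eq_zero_or_pos i with h3 | h3
    · rw [h3]
      exact h0.trans (le_mul_of_one_le_left hδ₀ p1)
    · exact (a1 i h3).trans (mul_le_mul_of_nonneg_left h01 (by positivity))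
  exact ⟨fun i hi => co_sub hP hQ hθ (by positivity) fun j hj _ => a1 j (hi.trans hj),
    co_sub hP hQ hθ (by positivity) fun j _ _ => a0 j⟩

section

variable {F : Fam m J} {c : ℕ → Fin m} {r n q w W X mm : ℕ} {γ : ℕ → ℕ}
  {G : ℕ → PtT F → ℕ → MvPolynomial (Option (Fin m)) ℝ}
  {H : LnT F → ℕ → MvPolynomial (Option (Fin m)) ℝ} {ζ : Type} {zw : F.Ω → ζ}

/-- The codes of order `≥ 2` are those of `cod`. -/
theorem ac_cod (ω : F.Ω) (j : Fin r) {K : ℕ} (a : Fin (K + 1)) (ha : 2 ≤ (a : ℕ)) :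
    (adM F c 0 r n q w W X mm γ G H zw).ac K ω j a =
      cod F W 2 K (2 ^ (γ j + q + (X + mm))) (c j) (fun s => upw w W s) (fun s => H s j) ω a := by
  unfold cod
  rw [if_pos ha]
  have e1 : (adM F c 0 r n q w W X mm γ G H zw).ac K ω j a =
      ⌊(2 : ℝ) ^ (X + mm) * (Polynomial.C (2 ^ (γ (0 + j) + q)) *
        dv W (fun s (_ : Fin m) => H (upw w W s) (0 + j)) (c (0 + j)) (slam F W ω)).coeff a⌋ := rfl
  rw [e1, Polynomial.coeff_C_mul, Nat.zero_add, ← mul_assoc]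
  congr 2
  rw [← pow_add]
  congr 1
  ring

/-- **The codes are near.** -/
theorem ac_near {D K : ℕ} (hwW : w ≤ W) (hW : W ≤ J) (hH : ∀ s l, (H s l).totalDegree ≤ D)
    (hK : D + 1 ≤ K) {N : ℕ → ℕ → ℝ}
    (h1 : ∀ l < r, ((γ l + q + (X + mm) : ℕ) : ℝ) ≤ N l 1 * J + W) {δ₀ : ℝ}
    (hδ₀ : (1 : ℝ) / 2 ^ (X + mm) ≤ δ₀)
    (h0 : ∀ l < r, (2 : ℝ) ^ (γ l + q) / 2 ^ (N l 0 * J) ≤ δ₀) {ω ν : F.Ω}
    (e1 : jet2 F c w H 0 r N ω = jet2 F c w H 0 r N ν)
    (e2 : (adM F c 0 r n q w W X mm γ G H zw).th ω = (adM F c 0 r n q w W X mm γ G H zw).th ν)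
    (j : Fin r)
    (e3 : cod F W 2 K (2 ^ (γ j + q + (X + mm))) (c j) (fun s => upw w W s) (fun s => H s j) ω =
      cod F W 2 K (2 ^ (γ j + q + (X + mm))) (c j) (fun s => upw w W s) (fun s => H s j) ν) :
    (∀ a : Fin (K + 1), 1 ≤ (a : ℕ) → |((adM F c 0 r n q w W X mm γ G H zw).ac K ω j a : ℝ) -
      (adM F c 0 r n q w W X mm γ G H zw).ac K ν j a| ≤ 2 ^ (K + 1) * 2 ^ (K + 1) + 1) ∧
    |((adM F c 0 r n q w W X mm γ G H zw).ac K ω j 0 : ℝ) -
      (adM F c 0 r n q w W X mm γ G H zw).ac K ν j 0| ≤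
        2 ^ (X + mm) * (2 ^ (K + 1) * (2 ^ (K + 1) * δ₀)) + 1 := by
  obtain ⟨d, hd⟩ : ∃ d, d = adM F c 0 r n q w W X mm γ G H zw := ⟨_, rfl⟩
  have hX : d.X = X := by rw [hd]; rfl
  have hm : d.m = mm := by rw [hd]; rfl
  have hdA : ∀ o, (d.A o j).natDegree ≤ K := by
    intro o
    rw [hd]
    exact adM_dA hH hK o j
  have hth : 0 ≤ d.th ω ∧ d.th ω < 1 := by
    rw [hd]
    exact adM_th hW ω
  have hj : ∀ (o : F.Ω) (a : ℕ), jt (d.A o j) (d.th o) a = 2 ^ (γ j + q) *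
      (ojet F (c j) a (H (slam F w o) j) o / ((a.factorial : ℝ) * (2 ^ W) ^ a)) := by
    intro o a
    have h := jt_adM (c := c) (k₀ := 0) (k := r) (n := n) (q := q) (X := X) (mm := mm) (γ := γ)
      (G := G) (H := H) (zw := zw) hwW hW o (some j) a
    rw [← hd] at h
    have h' : jj d o (some j) a = jt (d.A o j) (d.th o) a := rfl
    rw [h'] at h
    simpa using h
  have hac : ∀ a : Fin (K + 1), 2 ≤ (a : ℕ) → d.ac K ω j a = d.ac K ν j a := by
    intro a ha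
    rw [hd, ac_cod ω j a ha, ac_cod ν j a ha]
    exact congrFun e3 a
  rw [← hd] at e2 ⊢
  have hτ : (0 : ℝ) < 2 ^ (X + mm) := by positivity
  have hθ : |d.th ω| ≤ 1 := by
    rw [abs_le]
    constructor <;> linarith [hth.1, hth.2]
  have hjet : ∀ a : ℕ, a ≤ 1 → |ojet F (c j) a (H (slam F w ω) j) ω -
      ojet F (c j) a (H (slam F w ν) j) ν| ≤ 1 / 2 ^ (N j a * J) := by
    intro a ha
    have h := congrFun (congrFun e1 j) a
    unfold jet2 at h
    rw [if_pos ⟨Nat.zero_le _, j.2, ha⟩, if_pos ⟨Nat.zero_le _, j.2, ha⟩] at h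
    exact of_fl (Real.rpow_pos_of_pos two_pos _) h
  have hjd : ∀ a : ℕ, a ≤ 1 → |jt (d.A ω j) (d.th ω) a - jt (d.A ν j) (d.th ω) a| ≤
      2 ^ (γ j + q) / (2 ^ W) ^ a * (1 / 2 ^ (N j a * J)) := by
    intro a ha
    have e4 : jt (d.A ν j) (d.th ω) a = jt (d.A ν j) (d.th ν) a := by rw [e2]
    have hf : (a.factorial : ℝ) = 1 := by
      have : a = 0 ∨ a = 1 := by omega
      rcases this with h | h <;> rw [h] <;> simp
    rw [e4, hj ω a, hj ν a, hf, one_mul, ← mul_sub, ← sub_div, abs_mul, abs_div,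
      abs_of_pos (by positivity : (0 : ℝ) < 2 ^ (γ (j : ℕ) + q)),
      abs_of_pos (by positivity : (0 : ℝ) < (2 ^ W) ^ a)]
    have h := mul_le_mul_of_nonneg_left (hjet a ha)
      (by positivity : (0 : ℝ) ≤ 2 ^ (γ (j : ℕ) + q) / (2 ^ W) ^ a)
    calc _ = 2 ^ (γ (j : ℕ) + q) / (2 ^ W) ^ a * |ojet F (c j) a (H (slam F w ω) j) ω -
          ojet F (c j) a (H (slam F w ν) j) ν| := by ring
      _ ≤ _ := h
  have hj1 : |jt (d.A ω j) (d.th ω) 1 - jt (d.A ν j) (d.th ω) 1| ≤ 1 / 2 ^ (X + mm) := by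
    refine (hjd 1 le_rfl).trans ?_
    have p3 : (0 : ℝ) < 2 ^ (N j 1 * J) := Real.rpow_pos_of_pos two_pos _
    have h5 : (2 : ℝ) ^ (γ (j : ℕ) + q) * 2 ^ (X + mm) ≤ 2 ^ W * 2 ^ (N j 1 * J) := by
      rw [← pow_add, ← Real.rpow_natCast, ← Real.rpow_natCast, ← Real.rpow_add two_pos]
      refine Real.rpow_le_rpow_of_exponent_le one_le_two ?_
      have := h1 j j.2
      linarith
    rw [pow_one, div_mul_div_comm, mul_one, div_le_div_iff₀ (by positivity) hτ, one_mul]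
    exact h5
  have hj0 : |jt (d.A ω j) (d.th ω) 0 - jt (d.A ν j) (d.th ω) 0| ≤ δ₀ := by
    refine (hjd 0 (Nat.zero_le _)).trans (le_trans (le_of_eq ?_) (h0 j j.2))
    rw [pow_zero, div_one, mul_one_div]
  have hco : ∀ i, 2 ≤ i → i ≤ K → |(d.A ω j).coeff i - (d.A ν j).coeff i| ≤ 1 / 2 ^ (X + mm) := by
    intro i hi hiK
    have h := hac ⟨i, by omega⟩ hi
    unfold AD.ac at h
    rw [hX, hm] at h
    exact of_fl hτ h
  obtain ⟨c1, c0⟩ := co_mix (hdA ω) (hdA ν) hθ (by positivity) hδ₀ hco hj1 hj0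
  have key : ∀ (a : Fin (K + 1)) (B : ℝ), |(d.A ω j).coeff a - (d.A ν j).coeff a| ≤ B →
      |(d.ac K ω j a : ℝ) - d.ac K ν j a| ≤ 2 ^ (X + mm) * B + 1 := by
    intro a B hB
    have h := fl_mul hτ.le hB
    unfold AD.ac
    rw [hX, hm]
    exact h
  refine ⟨fun a ha => (key a _ (c1 a ha)).trans (le_of_eq ?_), key 0 _ c0⟩
  field_simp

/-- The constant. -/
noncomputable def cA (K : ℕ) : ℝ := Real.log (2 * (2 ^ (K + 1) * 2 ^ (K + 1) + 3) + 1)

theorem cA_nonneg (K : ℕ) : 0 ≤ cA K := Real.log_nonneg (by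
  have : (0 : ℝ) < 2 ^ (K + 1) * 2 ^ (K + 1) := by positivity
  linarith)

/-- The codes of order `≥ 2` of the base coordinates. -/
noncomputable def codf (F : Fam m J) (c : ℕ → Fin m) (r q w W X mm K : ℕ) (γ : ℕ → ℕ)
    (H : LnT F → ℕ → MvPolynomial (Option (Fin m)) ℝ) (ω : F.Ω) (l : Fin r) (a : Fin (K + 1)) : ℤ :=
  cod F W 2 K (2 ^ (γ l + q + (X + mm))) (c l) (fun s => upw w W s) (fun s => H s l) ω a

/-- They are few bits given the context. -/
theorem codf_le {p : F.Ω → ℝ} (hp : IsLaw p) (hW : W ≤ J) {K : ℕ} {e : ℝ}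
    (he : ∀ l < r, CH p (cod F W 2 K (2 ^ (γ l + q + (X + mm))) (c l) (fun s => upw w W s)
      (fun s => H s l)) F.W ≤ e) (N : ℕ → ℕ → ℝ) :
    CH p (codf F c r q w W X mm K γ H) (fun ω => (jet2 F c w H 0 r N ω,
      ((adM F c 0 r n q w W X mm γ G H zw).th ω, (adM F c 0 r n q w W X mm γ G H zw).z ω))) ≤
      r * e := by
  refine ch_vec hp.nonneg _ r (codf F c r q w W X mm K γ H) fun l => ?_
  refine le_trans (CH_mono_cond hp.nonneg fun ω ν _ _ h => ?_) (he l l.2)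
  simp only [Prod.mk.injEq] at h
  have z1 := (Prod.ext_iff.mp h.2.2).2
  have z2 := (Prod.ext_iff.mp z1).1
  exact adM_T hW h.2.1 z2

end

/-- Division of near integers. -/
theorem div_near {x y : ℤ} {M : ℕ} {B : ℝ} (h : |(x : ℝ) - y| ≤ 2 ^ M * B + 1) :
    |((x / 2 ^ M : ℤ) : ℝ) - (y / 2 ^ M : ℤ)| ≤ B + 2 := by
  have p0 : (0 : ℝ) < 2 ^ M := by positivity
  have hM : (1 : ℝ) ≤ 2 ^ M := one_le_pow₀ (by norm_num)
  have e : ∀ z : ℤ, z / 2 ^ M = ⌊(z : ℝ) / 2 ^ M⌋ := by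
    intro z
    have h1 := Int.floor_div_natCast (z : ℝ) (2 ^ M)
    push_cast at h1
    rw [h1, Int.floor_intCast]
  rw [e x, e y]
  have h2 := fl_abs ((x : ℝ) / 2 ^ M) ((y : ℝ) / 2 ^ M)
  have h3 : |(x : ℝ) / 2 ^ M - y / 2 ^ M| ≤ B + 1 := by
    rw [← sub_div, abs_div, abs_of_pos p0, div_le_iff₀ p0]
    refine h.trans ?_
    nlinarith
  linarith

/-- **The codes of the base coordinates** are few bits given the digits of the jets of the orders
`0`, `1` and the context. -/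
theorem ac_stmt (r K : ℕ) : ∃ C : ℝ, 0 ≤ C ∧ ∀ {m J : ℕ} {F : Fam m J} {c : ℕ → Fin m}
    {n q w W X mm D : ℕ} {γ : ℕ → ℕ} {G : ℕ → PtT F → ℕ → MvPolynomial (Option (Fin m)) ℝ}
    {H : LnT F → ℕ → MvPolynomial (Option (Fin m)) ℝ} {ζ : Type} {zw : F.Ω → ζ} {p : F.Ω → ℝ}
    {e : ℝ}, IsLaw p → w ≤ W → W ≤ J → (∀ s l, (H s l).totalDegree ≤ D) → D + 1 ≤ K → 0 ≤ e →
    (∀ l < r, CH p (cod F W 2 K (2 ^ (γ l + q + (X + mm))) (c l) (fun s => upw w W s)
      (fun s => H s l)) F.W ≤ e) →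
    (∀ N : ℕ → ℕ → ℝ, (∀ l < r, ((γ l + q + (X + mm) : ℕ) : ℝ) ≤ N l 0 * J) →
      (∀ l < r, ((γ l + q + (X + mm) : ℕ) : ℝ) ≤ N l 1 * J + W) →
      CH p ((adM F c 0 r n q w W X mm γ G H zw).ac K) (fun ω =>
        (jet2 F c w H 0 r N ω, ((adM F c 0 r n q w W X mm γ G H zw).th ω,
          (adM F c 0 r n q w W X mm γ G H zw).z ω))) ≤ r * e + C) ∧
    ∀ N : ℕ → ℕ → ℝ, (∀ l < r, ((γ l + q : ℕ) : ℝ) ≤ N l 0 * J) →
      (∀ l < r, ((γ l + q + (X + mm) : ℕ) : ℝ) ≤ N l 1 * J + W) →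
      CH p (fun ω => ((adM F c 0 r n q w W X mm γ G H zw).v K ω).2) (fun ω =>
        (jet2 F c w H 0 r N ω, ((adM F c 0 r n q w W X mm γ G H zw).th ω,
          (adM F c 0 r n q w W X mm γ G H zw).z ω))) ≤ r * e + C := by
  refine ⟨r * ((K + 1 : ℕ) * cA K), mul_nonneg (Nat.cast_nonneg r)
    (mul_nonneg (Nat.cast_nonneg _) (cA_nonneg K)), ?_⟩
  intro m J F c n q w W X mm D γ G H ζ zw p e hp hwW hW hH hK he hcod
  have h0 := hp.nonneg
  have hcard : (Fintype.card (Fin r × Fin (K + 1)) : ℝ) * cA K = r * ((K + 1 : ℕ) * cA K) := by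
    rw [Fintype.card_prod, Fintype.card_fin, Fintype.card_fin]
    push_cast
    ring
  have hp2 : (0 : ℝ) < 2 ^ (K + 1) * 2 ^ (K + 1) := by positivity
  constructor
  · intro N hN0 hN1
    have s1 := CH_le_add h0 ((adM F c 0 r n q w W X mm γ G H zw).ac K)
      (codf F c r q w W X mm K γ H) (fun ω =>
        (jet2 F c w H 0 r N ω, ((adM F c 0 r n q w W X mm γ G H zw).th ω,
          (adM F c 0 r n q w W X mm γ G H zw).z ω)))
    have s2 := codf_le (n := n) (G := G) (zw := zw) hp hW hcod N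
    have s3 := CH_near (ι := Fin r × Fin (K + 1)) hp
      (fun ω i => (adM F c 0 r n q w W X mm γ G H zw).ac K ω i.1 i.2)
      (fun ω => (codf F c r q w W X mm K γ H ω, (jet2 F c w H 0 r N ω,
        ((adM F c 0 r n q w W X mm γ G H zw).th ω,
          (adM F c 0 r n q w W X mm γ G H zw).z ω))))
      (D := 2 ^ (K + 1) * 2 ^ (K + 1) + 3) (by positivity) (by
        intro ω ν hω hν hh i
        simp only [Prod.mk.injEq] at hh
        obtain ⟨b1, b2, b3, b4⟩ := hh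
        have hδ : ∀ l < r, (2 : ℝ) ^ (γ l + q) / 2 ^ (N l 0 * J) ≤ 1 / 2 ^ (X + mm) := by
          intro l hl
          have p3 : (0 : ℝ) < 2 ^ (N l 0 * J) := Real.rpow_pos_of_pos two_pos _
          rw [div_le_div_iff₀ p3 (by positivity), one_mul, ← pow_add, ← Real.rpow_natCast]
          exact Real.rpow_le_rpow_of_exponent_le one_le_two (hN0 l hl)
        obtain ⟨a1, a0⟩ := ac_near (n := n) (G := G) (zw := zw) hwW hW hH hK hN1 le_rfl hδ b2 b3 i.1
          (congrFun b1 i.1)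
        rcases Nat.eq_zero_or_pos (i.2 : ℕ) with h5 | h5
        · have h6 : i.2 = 0 := Fin.ext h5
          rw [h6]
          refine a0.trans ?_
          have e5 : (2 : ℝ) ^ (X + mm) * (2 ^ (K + 1) * (2 ^ (K + 1) * (1 / 2 ^ (X + mm)))) =
            2 ^ (K + 1) * 2 ^ (K + 1) := by field_simp
          rw [e5]
          linarith
        · exact (a1 i.2 h5).trans (by linarith))
    have s4 : CH p ((adM F c 0 r n q w W X mm γ G H zw).ac K)
        (fun ω => (codf F c r q w W X mm K γ H ω, (jet2 F c w H 0 r N ω,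
          ((adM F c 0 r n q w W X mm γ G H zw).th ω,
            (adM F c 0 r n q w W X mm γ G H zw).z ω)))) ≤
        CH p (fun ω (i : Fin r × Fin (K + 1)) =>
          (adM F c 0 r n q w W X mm γ G H zw).ac K ω i.1 i.2)
          (fun ω => (codf F c r q w W X mm K γ H ω, (jet2 F c w H 0 r N ω,
          ((adM F c 0 r n q w W X mm γ G H zw).th ω,
            (adM F c 0 r n q w W X mm γ G H zw).z ω)))) := by
      refine CH_mono_left h0 fun ω ν _ _ hh => ?_
      have h2 := (Prod.ext_iff.mp hh).1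
      funext j a
      exact congrFun h2 (j, a)
    have s5 : (Fintype.card (Fin r × Fin (K + 1)) : ℝ) *
        Real.log (2 * (2 ^ (K + 1) * 2 ^ (K + 1) + 3) + 1) = r * ((K + 1 : ℕ) * cA K) := hcard
    rw [s5] at s3
    linarith
  · intro N hN0 hN1
    have s1 := CH_le_add h0 (fun ω => ((adM F c 0 r n q w W X mm γ G H zw).v K ω).2)
      (codf F c r q w W X mm K γ H) (fun ω =>
        (jet2 F c w H 0 r N ω, ((adM F c 0 r n q w W X mm γ G H zw).th ω,
          (adM F c 0 r n q w W X mm γ G H zw).z ω)))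
    have s2 := codf_le (n := n) (G := G) (zw := zw) hp hW hcod N
    have s3 := CH_near (ι := Fin r × Fin (K + 1)) hp
      (fun ω i => if (i.2 : ℕ) = 0 then
        (adM F c 0 r n q w W X mm γ G H zw).ac K ω i.1 0 / 2 ^ (X + mm) else
        (adM F c 0 r n q w W X mm γ G H zw).ac K ω i.1 i.2)
      (fun ω => (codf F c r q w W X mm K γ H ω, (jet2 F c w H 0 r N ω,
        ((adM F c 0 r n q w W X mm γ G H zw).th ω,
          (adM F c 0 r n q w W X mm γ G H zw).z ω))))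
      (D := 2 ^ (K + 1) * 2 ^ (K + 1) + 3) (by positivity) (by
        intro ω ν hω hν hh i
        simp only [Prod.mk.injEq] at hh
        obtain ⟨b1, b2, b3, b4⟩ := hh
        have hδ : ∀ l < r, (2 : ℝ) ^ (γ l + q) / 2 ^ (N l 0 * J) ≤ 1 := by
          intro l hl
          have p3 : (0 : ℝ) < 2 ^ (N l 0 * J) := Real.rpow_pos_of_pos two_pos _
          rw [div_le_one p3, ← Real.rpow_natCast]
          exact Real.rpow_le_rpow_of_exponent_le one_le_two (hN0 l hl)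
        have h11 : (1 : ℝ) / 2 ^ (X + mm) ≤ 1 := by
          rw [div_le_one (by positivity)]
          exact one_le_pow₀ (by norm_num)
        obtain ⟨a1, a0⟩ := ac_near (n := n) (G := G) (zw := zw) hwW hW hH hK hN1 h11 hδ b2 b3 i.1
          (congrFun b1 i.1)
        split_ifs with h5
        · refine (div_near a0).trans ?_
          rw [mul_one]
          linarith
        · exact (a1 i.2 (Nat.pos_of_ne_zero h5)).trans (by linarith))
    have s4 : CH p (fun ω => ((adM F c 0 r n q w W X mm γ G H zw).v K ω).2)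
        (fun ω => (codf F c r q w W X mm K γ H ω, (jet2 F c w H 0 r N ω,
          ((adM F c 0 r n q w W X mm γ G H zw).th ω,
            (adM F c 0 r n q w W X mm γ G H zw).z ω)))) ≤
        CH p (fun ω (i : Fin r × Fin (K + 1)) => if (i.2 : ℕ) = 0 then
          (adM F c 0 r n q w W X mm γ G H zw).ac K ω i.1 0 / 2 ^ (X + mm) else
          (adM F c 0 r n q w W X mm γ G H zw).ac K ω i.1 i.2)
          (fun ω => (codf F c r q w W X mm K γ H ω, (jet2 F c w H 0 r N ω,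
          ((adM F c 0 r n q w W X mm γ G H zw).th ω,
            (adM F c 0 r n q w W X mm γ G H zw).z ω)))) := by
      refine CH_mono_left h0 fun ω ν _ _ hh => ?_
      have h2 := (Prod.ext_iff.mp hh).1
      refine Prod.ext ?_ ?_
      · funext j a
        have h3 := congrFun h2 (j, a.succ)
        have h4 : ¬ (((a.succ : Fin (K + 1)) : ℕ) = 0) := by simp
        simp only [h4, if_false] at h3
        exact h3
      · funext j
        have h3 := congrFun h2 (j, 0)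
        simp only [Fin.val_zero, if_true] at h3
        exact h3
    have s5 : (Fintype.card (Fin r × Fin (K + 1)) : ℝ) *
        Real.log (2 * (2 ^ (K + 1) * 2 ^ (K + 1) + 3) + 1) = r * ((K + 1 : ℕ) * cA K) := hcard
    rw [s5] at s3
    linarith

end Pool.V0F97
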